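import Pool.Agent.Y108.Mo.Thy

/-!
# The annihilator of a class: the algebra
-/

set_option autoImplicit false
set_option linter.unusedSimpArgs false

open CategoryTheory AlgebraicGeometry

universe u v

namespace Pool.Agent.Y108.Mo

open SmClass SmClass.Obj

variable {k : Type u} [Field k] {𝒱 : SmClass k}

namespace CycleTheory

variable (C : CycleTheory.{u, v} 𝒱) [hC : IsCycleTheory C] {T T' V W X Y Z : 𝒱.Obj}

section point

lemma fst_point_iso (T : 𝒱.Obj) :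
    fst T (point 𝒱) ≫ Obj.lift (𝟙 T) (Obj.toPoint T) = 𝟙 (T.prod (point 𝒱)) := by
  apply prod_ext
  · simp
  · exact toPoint_ext _ _

lemma fst_point_iso' (T : 𝒱.Obj) :
    Obj.lift (𝟙 T) (Obj.toPoint T) ≫ fst T (point 𝒱) = 𝟙 T := lift_fst _ _

lemma push_fst_point_one (T : 𝒱.Obj) : C.push (fst T (point 𝒱)) 1 = 1 :=
  hC.push_one _ _ (fst_point_iso T) (fst_point_iso' T)

lemma push_pull_fst_point (b : C.A T) :
    C.push (fst T (point 𝒱)) (C.pull (fst T (point 𝒱)) b) = b :=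
  C.push_pull_iso _ _ (fst_point_iso T) (fst_point_iso' T) b

lemma pull_push_fst_point (b : C.A (T.prod (point 𝒱))) :
    C.pull (fst T (point 𝒱)) (C.push (fst T (point 𝒱)) b) = b := by
  rw [← C.pull_iso _ _ (fst_point_iso' T) (fst_point_iso T), ← C.pull_comp, fst_point_iso,
    C.pull_id]

lemma pull_fst_point_injective {a b : C.A T}
    (h : C.pull (fst T (point 𝒱)) a = C.pull (fst T (point 𝒱)) b) : a = b := by
  rw [← C.push_pull_fst_point a, h, C.push_pull_fst_point]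

/-- The degree of a class on `Z`. -/
lemma exists_degree (w : C.A Z) : ∃ q : ℚ, ∀ T : 𝒱.Obj,
    C.push (fst T Z) (C.pull (snd T Z) w) = q • (1 : C.A T) := by
  obtain ⟨q, hq⟩ : ∃ q : ℚ, C.push (Obj.toPoint Z) w = q • (1 : C.A (point 𝒱)) :=
    hC.point_span (C.push (Obj.toPoint Z) w)
  refine ⟨q, fun T => ?_⟩
  have e1 : fst T Z = prodMap (𝟙 T) (Obj.toPoint Z) ≫ fst T (point 𝒱) := by simp
  rw [e1, C.push_comp, ← C.base_snd, hq, map_smul, map_smul, map_one, push_fst_point_one]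

end point

/-- The class of the graph. -/
noncomputable def gph (f : X ⟶ Y) : C.A (X.prod Y) := C.push (Obj.lift (𝟙 X) f) 1

lemma gph_comp (f : X ⟶ Y) (q : C.A (Y.prod Z)) :
    C.comp (C.gph f) q = C.pull (prodMap f (𝟙 Z)) q := by
  rw [comp_def, gph, C.base_fst, ← C.proj_right, ← C.push_comp, map_one,
    one_mul, ← C.pull_comp]
  have e1 : prodMap (Obj.lift (𝟙 X) f) (𝟙 Z) ≫ t13 X Y Z = 𝟙 _ := by
    apply prod_ext <;> simp [t13]
  have e2 : prodMap (Obj.lift (𝟙 X) f) (𝟙 Z) ≫ t23 X Y Z = prodMap f (𝟙 Z) := by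
    apply prod_ext <;> simp [t23]
  rw [e1, e2, C.push_id]

lemma pull_comp_left (f : T' ⟶ T) (q : C.A (T.prod Z)) (p : C.A (Z.prod W)) :
    C.comp (C.pull (prodMap f (𝟙 Z)) q) p = C.pull (prodMap f (𝟙 W)) (C.comp q p) := by
  rw [← gph_comp, comp_assoc, gph_comp]

lemma mul_comp_left (a : C.A T) (q : C.A (T.prod Z)) (p : C.A (Z.prod W)) :
    C.comp (C.pull (fst T Z) a * q) p = C.pull (fst T W) a * C.comp q p := by
  rw [comp_def, map_mul (C.pull (fst (T.prod Z) W)), ← C.pull_comp, ← t13_fst, C.pull_comp,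
    mul_assoc, C.proj_left]
  rfl

/-- The contraction of `g ∈ A(T × Z)` with a class on `Z`. -/
noncomputable def ctr (I : C.A Z) (g : C.A (T.prod Z)) : C.A T :=
  C.push (fst T Z) (g * C.pull (snd T Z) I)

lemma comp_pull_fst (I : C.A Z) (g : C.A (T.prod Z)) :
    C.comp g (C.pull (fst Z (point 𝒱)) I) = C.pull (fst T (point 𝒱)) (C.ctr I g) := by
  rw [comp_def, ← C.pull_comp, t23_fst, C.pull_comp, ← map_mul, ctr, C.base_fst]
  rfl

lemma ctr_pull (I : C.A Z) (f : T' ⟶ T) (g : C.A (T.prod Z)) :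
    C.ctr I (C.pull (prodMap f (𝟙 Z)) g) = C.pull f (C.ctr I g) := by
  apply C.pull_fst_point_injective
  rw [← comp_pull_fst, pull_comp_left, comp_pull_fst, ← C.pull_comp, ← C.pull_comp, prodMap_fst]

lemma ctr_mul (I : C.A Z) (a : C.A T) (g : C.A (T.prod Z)) :
    C.ctr I (C.pull (fst T Z) a * g) = a * C.ctr I g := by
  rw [ctr, mul_assoc, C.proj_left]
  rfl

omit hC in
lemma ctr_sub (I : C.A Z) (g g' : C.A (T.prod Z)) :
    C.ctr I (g - g') = C.ctr I g - C.ctr I g' := by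
  rw [ctr, sub_mul, map_sub]
  rfl

omit hC in
lemma ctr_zero (g : C.A (T.prod Z)) : C.ctr 0 g = 0 := by
  rw [ctr, map_zero, mul_zero, map_zero]

omit hC in
lemma sub_comp (Γ Γ' : C.A (X.prod Y)) (Δ : C.A (Y.prod Z)) :
    C.comp (Γ - Γ') Δ = C.comp Γ Δ - C.comp Γ' Δ := by
  rw [comp_def, map_sub, sub_mul, map_sub]
  rfl

lemma comp_pull_snd (y : C.A T) (x : C.A X) :
    C.comp (C.pull (fst T (point 𝒱)) y) (C.pull (snd (point 𝒱) X) x) = C.ext y x := by
  have e1 : t13 T (point 𝒱) X ≫ Obj.lift (Obj.lift (fst T X) (Obj.toPoint _)) (snd T X) =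
      𝟙 _ := by
    apply prod_ext
    · apply prod_ext
      · simp [comp_lift]
      · exact toPoint_ext _ _
    · simp [comp_lift]
  have e2 : Obj.lift (Obj.lift (fst T X) (Obj.toPoint _)) (snd T X) ≫ t13 T (point 𝒱) X =
      𝟙 _ := by
    apply prod_ext <;> simp [t13]
  have h1 := C.push_pull_iso _ _ e1 e2 (C.ext y x)
  rw [← h1, comp_def, ext_def, map_mul (C.pull (t13 T (point 𝒱) X)), ← C.pull_comp, ← C.pull_comp,
    ← C.pull_comp, ← C.pull_comp, t23_snd, t13_fst, t13_snd]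

lemma ext_swap_eq_zero {a : C.A X} {b : C.A Y} (h : C.ext a b = 0) : C.ext b a = 0 := by
  have h1 : C.pull (sw Y X) (C.ext a b) = C.ext b a := by
    rw [ext_def, map_mul, ← C.pull_comp, ← C.pull_comp, sw, lift_fst, lift_snd, mul_comm]
    rfl
  rw [← h1, h, map_zero]

/-- The data of a kernel `(Z, m, p)` of the morphism `1 ⟶ h(X)(i)` given by the class `x`, with
its morphism to `1` given by the class `I`. -/
structure IsAnn (x : C.A X) (Z : 𝒱.Obj) (m : ℤ) (p : C.A (Z.prod Z)) (I : C.A Z) : Prop where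
  p_mem : p ∈ C.gr (Z.prod Z) Z.dim
  I_mem : I ∈ C.gr Z (Z.dim - m)
  idem : C.comp p p = p
  ctr_p : C.ctr I p = I
  ext_eq : C.ext I x = 0
  mono : ∀ (T : 𝒱.Obj) (n : ℤ) (g : C.A (T.prod Z)), g ∈ C.gr _ (T.dim + (m - n)) →
    C.comp g p = g → C.ctr I g = 0 → g = 0
  lift : ∀ (T : 𝒱.Obj) (n : ℤ) (y : C.A T), y ∈ C.gr _ (T.dim - n) → C.ext y x = 0 →
    ∃ g ∈ C.gr (T.prod Z) (T.dim + (m - n)), C.comp g p = g ∧ C.ctr I g = y

variable {C}

theorem IsAnn.main {x : C.A X} {i : ℤ} (hx : x ∈ C.gr X i) (hx0 : x ≠ 0) {Z : 𝒱.Obj} {m : ℤ}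
    {p : C.A (Z.prod Z)} {I : C.A Z} (h : IsAnn C x Z m p I) : I = 0 := by
  -- step 1
  have hxI : C.ext x I = 0 := C.ext_swap_eq_zero h.ext_eq
  set g1 : C.A ((X.prod Z).prod Z) := C.pull (fst (X.prod Z) Z) (C.pull (fst X Z) x) *
    C.pull (prodMap (snd X Z) (𝟙 Z)) p with hg1
  have h1 : g1 = 0 := by
    refine h.mono (X.prod Z) (X.dim + m - i) g1 ?_ ?_ ?_
    · have h2 := C.mul_mem (C.pull_mem (fst (X.prod Z) Z) (C.pull_mem (fst X Z) hx))
        (C.pull_mem (prodMap (snd X Z) (𝟙 Z)) h.p_mem)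
      have h3 : i + (Z.dim : ℤ) = (X.prod Z).dim + (m - (X.dim + m - i)) := by
        rw [dim_prod]; push_cast; ring
      rw [h3] at h2
      exact h2
    · rw [hg1, mul_comp_left, pull_comp_left, h.idem]
    · rw [hg1, ctr_mul, ctr_pull, h.ctr_p]
      exact hxI
  -- step 2
  have h2 : C.ext p x = 0 := by
    have e1 := congrArg (C.pull (Obj.lift (Obj.lift (snd (Z.prod Z) X)
      (fst (Z.prod Z) X ≫ fst Z Z)) (fst (Z.prod Z) X ≫ snd Z Z))) h1
    rw [map_zero, hg1, map_mul, ← C.pull_comp, ← C.pull_comp, ← C.pull_comp,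
      Category.assoc] at e1
    have e2 : Obj.lift (Obj.lift (snd (Z.prod Z) X) (fst (Z.prod Z) X ≫ fst Z Z))
        (fst (Z.prod Z) X ≫ snd Z Z) ≫ fst (X.prod Z) Z ≫ fst X Z = snd (Z.prod Z) X := by
      simp
    have e3 : Obj.lift (Obj.lift (snd (Z.prod Z) X) (fst (Z.prod Z) X ≫ fst Z Z))
        (fst (Z.prod Z) X ≫ snd Z Z) ≫ prodMap (snd X Z) (𝟙 Z) = fst (Z.prod Z) X := by
      apply prod_ext <;> simp
    rw [e2, e3, mul_comm] at e1
    exact e1
  obtain ⟨hh, hhm, hhp, hhI⟩ := h.lift (Z.prod Z) Z.dim p (by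
    have e1 : ((Z.prod Z).dim : ℤ) - Z.dim = Z.dim := by rw [dim_prod]; push_cast; ring
    rw [e1]
    exact h.p_mem) h2
  -- step 3
  set T := Z.prod (Z.prod Z) with hT
  set g3 : C.A (T.prod Z) := C.pull (fst T Z) (C.pull (fst Z (Z.prod Z)) I) *
      C.pull (prodMap (snd Z (Z.prod Z)) (𝟙 Z)) hh -
    C.pull (fst T Z) (C.pull (snd Z (Z.prod Z)) p) *
      C.pull (prodMap (fst Z (Z.prod Z)) (𝟙 Z)) p with hg3
  have h3 : g3 = 0 := by
    refine h.mono T (Z.dim + m) g3 ?_ ?_ ?_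
    · refine Submodule.sub_mem _ ?_ ?_
      · have h2 := C.mul_mem (C.pull_mem (fst T Z) (C.pull_mem (fst Z (Z.prod Z)) h.I_mem))
          (C.pull_mem (prodMap (snd Z (Z.prod Z)) (𝟙 Z)) hhm)
        have h3 : (Z.dim : ℤ) - m + ((Z.prod Z).dim + (m - Z.dim)) =
            T.dim + (m - (Z.dim + m)) := by
          simp only [hT, dim_prod]; push_cast; ring
        rw [h3] at h2
        exact h2
      · have h2 := C.mul_mem (C.pull_mem (fst T Z) (C.pull_mem (snd Z (Z.prod Z)) h.p_mem))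
          (C.pull_mem (prodMap (fst Z (Z.prod Z)) (𝟙 Z)) h.p_mem)
        have h3 : (Z.dim : ℤ) + Z.dim = T.dim + (m - (Z.dim + m)) := by
          simp only [hT, dim_prod]; push_cast; ring
        rw [h3] at h2
        exact h2
    · rw [hg3, sub_comp, mul_comp_left, mul_comp_left, pull_comp_left, pull_comp_left, h.idem,
        hhp]
    · rw [hg3, ctr_sub, ctr_mul, ctr_mul, ctr_pull, ctr_pull, h.ctr_p, hhI, mul_comm, sub_self]
  -- step 4
  set r : C.A Z := C.push (snd Z Z) (C.pull (Obj.lift (𝟙 (Z.prod Z)) (fst Z Z)) hh) with hr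
  have h4 : p = C.ext I r := by
    have e1 := congrArg (C.pull (Obj.lift (𝟙 T) (snd Z (Z.prod Z) ≫ fst Z Z))) h3
    rw [map_zero, hg3, map_sub, sub_eq_zero, map_mul, map_mul, ← C.pull_comp, ← C.pull_comp,
      ← C.pull_comp, ← C.pull_comp, ← C.pull_comp, ← C.pull_comp, Category.assoc,
      Category.assoc] at e1
    have e2 : Obj.lift (𝟙 T) (snd Z (Z.prod Z) ≫ fst Z Z) ≫ fst T Z ≫ fst Z (Z.prod Z) =
        u13 Z Z Z ≫ fst Z Z := by
      simp
    have e3 : Obj.lift (𝟙 T) (snd Z (Z.prod Z) ≫ fst Z Z) ≫ prodMap (snd Z (Z.prod Z)) (𝟙 Z) =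
        snd Z (Z.prod Z) ≫ Obj.lift (𝟙 (Z.prod Z)) (fst Z Z) := by
      apply prod_ext <;> simp [comp_lift]
    have e4 : Obj.lift (𝟙 T) (snd Z (Z.prod Z) ≫ fst Z Z) ≫ fst T Z ≫ snd Z (Z.prod Z) =
        snd Z (Z.prod Z) := by
      simp
    have e5 : Obj.lift (𝟙 T) (snd Z (Z.prod Z) ≫ fst Z Z) ≫ prodMap (fst Z (Z.prod Z)) (𝟙 Z) =
        u12 Z Z Z := by
      apply prod_ext <;> simp [comp_lift]
    rw [e2, e3, e4, e5] at e1
    have e6 := congrArg (C.push (u13 Z Z Z)) e1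
    rw [C.pull_comp (u13 Z Z Z), C.proj_left, C.pull_comp (snd Z (Z.prod Z))] at e6
    have e7 : C.push (u13 Z Z Z) (C.pull (snd Z (Z.prod Z)) p * C.pull (u12 Z Z Z) p) = p := by
      have := C.comp_eq_extR p p
      rw [h.idem] at this
      exact this.symm
    rw [e7] at e6
    rw [← e6, ext_def, hr, C.base_snd]
    rfl
  -- step 5
  obtain ⟨q, hq⟩ := C.exists_degree (r * I)
  have h5 : I = q • I := by
    conv_lhs => rw [← h.ctr_p, h4, ext_def, ctr_mul, ctr, ← map_mul, hq Z]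
    rw [mul_smul_comm, mul_one]
  -- step 6
  have h6 : q • x = 0 := by
    have e1 : C.push (fst X Z) (C.ext x I * C.pull (snd X Z) r) = q • x := by
      rw [ext_def, mul_assoc, ← map_mul, C.proj_left, mul_comm I r, hq X, mul_smul_comm, mul_one]
    rw [← e1, hxI, zero_mul, map_zero]
  rcases smul_eq_zero.1 h6 with hq0 | hx1
  · rw [h5, hq0, zero_smul]
  · exact absurd hx1 hx0

theorem IsAnn.eq_zero {x : C.A X} {i : ℤ} (hx : x ∈ C.gr X i) (hx0 : x ≠ 0) {Z : 𝒱.Obj} {m : ℤ}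
    {p : C.A (Z.prod Z)} {I : C.A Z} (h : IsAnn C x Z m p I) {T : 𝒱.Obj} {j : ℤ} {y : C.A T}
    (hy : y ∈ C.gr T j) (hxy : C.ext y x = 0) : y = 0 := by
  have hI := h.main hx hx0
  obtain ⟨g, -, -, hg⟩ := h.lift T (T.dim - j) y (by
    have e1 : (T.dim : ℤ) - (T.dim - j) = j := by ring
    rw [e1]
    exact hy) hxy
  rw [← hg, hI, ctr_zero]

end CycleTheory

end Pool.Agent.Y108.Mo
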