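import Pool.Agent.Y108.Mo.Thy

/-!
# The category of motives
-/

set_option autoImplicit false

open CategoryTheory CategoryTheory.Limits AlgebraicGeometry

universe u v

namespace Pool.Agent.Y108.Mo

open SmClass SmClass.Obj

variable {k : Type u} [Field k] {𝒱 : SmClass k}

/-- The pairs `(X, m)` of a member `X` of the class and an integer `m` (a twist). -/
structure Twisted (C : CycleTheory.{u, v} 𝒱) where
  /-- the scheme -/
  X : 𝒱.Obj
  /-- the twist -/
  m : ℤ

variable (C : CycleTheory.{u, v} 𝒱) [hC : IsCycleTheory C]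

/-- The codimension `dim X + n - m` of the correspondences from `(X, m)` to `(Y, n)`. -/
def Twisted.deg {C : CycleTheory.{u, v} 𝒱} (M N : Twisted C) : ℤ := M.X.dim + (N.m - M.m)

/-- The group of correspondences `Hom((X, m), (Y, n)) = A^(dim X + n - m)(X × Y)`. -/
abbrev Corr (M N : Twisted C) : Type v := C.gr (M.X.prod N.X) (M.deg N)

/-- The group structure, that of a subgroup of `A(X × Y)`. -/
noncomputable abbrev Corr.group (M N : Twisted C) : AddCommGroup (Corr C M N) := inferInstance

variable {C}

omit hC in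
/-- The correspondence given by a class in `A^(dim X + n - m)(X × Y)`. -/
def Corr.mk {M N : Twisted C} (a : C.A (M.X.prod N.X)) (h : C.Mem (M.deg N) a) : Corr C M N :=
  ⟨a, h⟩

omit hC in
/-- The class of a correspondence. -/
def Corr.cls {M N : Twisted C} (f : Corr C M N) : C.A (M.X.prod N.X) := f.1

lemma Corr.id_mem (M : Twisted C) : C.Mem (M.deg M) (C.diag M.X) := by
  change C.diag M.X ∈ C.gr (M.X.prod M.X) (M.X.dim + (M.m - M.m))
  rw [sub_self, add_zero]; exact C.diag_mem M.X

/-- The identity correspondence is the class of the diagonal. -/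
noncomputable def Corr.id (M : Twisted C) : Corr C M M := Corr.mk (C.diag M.X) (Corr.id_mem M)

lemma Corr.comp_mem {L M N : Twisted C} (f : Corr C L M) (g : Corr C M N) :
    C.Mem (L.deg N) (C.comp f.cls g.cls) :=
  C.comp_mem f.2 g.2 (by simp only [Twisted.deg]; ring)

/-- The composition of correspondences. -/
noncomputable def Corr.comp {L M N : Twisted C} (f : Corr C L M) (g : Corr C M N) : Corr C L N :=
  Corr.mk (C.comp f.cls g.cls) (Corr.comp_mem f g)

lemma Corr.id_comp {M N : Twisted C} (f : Corr C M N) : Corr.comp (Corr.id M) f = f :=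
  Subtype.ext (C.diag_comp f.1)

lemma Corr.comp_id {M N : Twisted C} (f : Corr C M N) : Corr.comp f (Corr.id N) = f :=
  Subtype.ext (C.comp_diag f.1)

lemma Corr.assoc {K L M N : Twisted C} (f : Corr C K L) (g : Corr C L M) (h : Corr C M N) :
    Corr.comp (Corr.comp f g) h = Corr.comp f (Corr.comp g h) :=
  Subtype.ext (C.comp_assoc f.1 g.1 h.1)

lemma Corr.add_comp (L M N : Twisted C) (f f' : Corr C L M) (g : Corr C M N) :
    Corr.comp (f + f') g = Corr.comp f g + Corr.comp f' g :=
  Subtype.ext (C.add_comp f.1 f'.1 g.1)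

lemma Corr.comp_add (L M N : Twisted C) (f : Corr C L M) (g g' : Corr C M N) :
    Corr.comp f (g + g') = Corr.comp f g + Corr.comp f g' :=
  Subtype.ext (C.comp_add f.1 g.1 g'.1)

variable (C)

/-- The category of correspondences: `Hom((X, m), (Y, n)) = A^(dim X + n - m)(X × Y)`. -/
noncomputable instance catTwisted : Category (Twisted C) where
  Hom M N := Corr C M N
  id M := Corr.id M
  comp f g := Corr.comp f g
  id_comp := Corr.id_comp
  comp_id := Corr.comp_id
  assoc := Corr.assoc

noncomputable instance preadditiveTwisted : Preadditive (Twisted C) where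
  homGroup := Corr.group C
  add_comp := Corr.add_comp
  comp_add := Corr.comp_add

/-- The category of motives: the objects are the triples `(X, m, p)` where `p` is an idempotent
endomorphism of `(X, m)`; the morphisms `(X, m, p) ⟶ (Y, n, q)` are the `q ∘ f ∘ p` (the
idempotent completion of the category of correspondences). -/
abbrev Motive : Type _ := Idempotents.Karoubi (Twisted C)

/-- The motive `h(X)(m)`. -/
noncomputable def motive (X : 𝒱.Obj) (m : ℤ) : Motive C :=
  (Idempotents.toKaroubi (Twisted C)).obj ⟨X, m⟩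

/-- The pair `(Spec k, 0)`. -/
noncomputable def unitT : Twisted C := ⟨point 𝒱, 0⟩

variable {C} in
lemma ofClass_mem {X : 𝒱.Obj} {i : ℤ} (x : C.gr X i) :
    C.Mem ((unitT C).deg ⟨X, i⟩) (C.pb (snd (point 𝒱) X) (x : C.A X)) := by
  have h1 := C.pull_mem (snd (point 𝒱) X) x.2
  have h2 : ((point 𝒱).dim : ℤ) + (i - 0) = i := by rw [dim_point]; push_cast; ring
  change _ ∈ C.gr _ (((point 𝒱).dim : ℤ) + (i - 0))
  rw [h2]
  exact h1

/-- The correspondence from `Spec k` to `X` given by the class `x ∈ A^i(X)`: its pull-back to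
`Spec k × X`. -/
noncomputable def corrOfClass {X : 𝒱.Obj} {i : ℤ} (x : C.gr X i) : Corr C (unitT C) ⟨X, i⟩ :=
  Corr.mk (C.pb (snd (point 𝒱) X) (x : C.A X)) (ofClass_mem x)

/-- The morphism `1 ⟶ h(X)(i)` given by the class `x ∈ A^i(X)`. -/
noncomputable def ofClass {X : 𝒱.Obj} {i : ℤ} (x : C.gr X i) : motive C (point 𝒱) 0 ⟶ motive C X i :=
  (Idempotents.toKaroubi (Twisted C)).map
    (show (unitT C) ⟶ (⟨X, i⟩ : Twisted C) from corrOfClass C x)

variable {C}

@[simp] lemma id_val (M : Twisted C) : (𝟙 M : M ⟶ M).1 = C.diag M.X := rfl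
@[simp] lemma comp_val {L M N : Twisted C} (f : L ⟶ M) (g : M ⟶ N) :
    (f ≫ g).1 = C.comp f.1 g.1 := rfl
@[simp] lemma zero_val {L M : Twisted C} : (0 : L ⟶ M).1 = 0 := rfl

lemma hom_ext' {L M : Twisted C} {f g : L ⟶ M} (h : f.1 = g.1) : f = g := Subtype.ext h

end Pool.Agent.Y108.Mo
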