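import Pool.Agent.Y108.Mo.Cat
import Pool.Agent.Y108.Mo.Alg

/-!
# Kernels of the morphisms given by cycle classes
-/

set_option autoImplicit false

open CategoryTheory CategoryTheory.Limits AlgebraicGeometry

universe u v

namespace Pool.Agent.Y108.Mo

open SmClass SmClass.Obj

variable {k : Type u} [Field k] {𝒱 : SmClass k} (C : CycleTheory.{u, v} 𝒱) [hC : IsCycleTheory C]

/-- The morphism `h(T)(n) ⟶ 1` given by `y ∈ A^(dim T - n)(T)`. -/
noncomputable def toUnit {T : 𝒱.Obj} {n : ℤ} (y : C.A T) (hy : y ∈ C.gr T (T.dim - n)) :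
    (⟨T, n⟩ : Twisted C) ⟶ ⟨point 𝒱, 0⟩ :=
  ⟨C.pull (fst T (point 𝒱)) y, by
    have h1 := C.pull_mem (fst T (point 𝒱)) hy
    have h2 : (T.dim : ℤ) + (0 - n) = T.dim - n := by ring
    change _ ∈ C.gr _ ((T.dim : ℤ) + (0 - n))
    rw [h2]
    exact h1⟩

@[simp] lemma toUnit_val {T : 𝒱.Obj} {n : ℤ} (y : C.A T) (hy : y ∈ C.gr T (T.dim - n)) :
    (toUnit C y hy).1 = C.pull (fst T (point 𝒱)) y := rfl

/-- Every morphism `(T, n) ⟶ 1` comes from a class on `T`. -/
lemma exists_toUnit {T : 𝒱.Obj} {n : ℤ} (φ : (⟨T, n⟩ : Twisted C) ⟶ ⟨point 𝒱, 0⟩) :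
    ∃ (y : C.A T) (hy : y ∈ C.gr T (T.dim - n)), φ = toUnit C y hy := by
  refine ⟨C.push (fst T (point 𝒱)) φ.1, ?_, ?_⟩
  · have h1 := C.push_mem (fst T (point 𝒱)) φ.2
    have h2 : (T.dim : ℤ) + (0 - n) + ((T.dim : ℤ) - (T.prod (point 𝒱)).dim) = T.dim - n := by
      rw [dim_prod, dim_point]; push_cast; ring
    change _ ∈ C.gr _ ((T.dim : ℤ) + (0 - n) + ((T.dim : ℤ) - (T.prod (point 𝒱)).dim)) at h1
    rw [h2] at h1
    exact h1
  · apply hom_ext'
    rw [toUnit_val, C.pull_push_fst_point]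

/-- The class of a member on `1 ⟶ h(X)(i)` before the idempotent completion. -/
noncomputable def ofClass' {X : 𝒱.Obj} {i : ℤ} (x : C.gr X i) :
    (⟨point 𝒱, 0⟩ : Twisted C) ⟶ ⟨X, i⟩ := (ofClass C x).f

lemma ofClass'_val {X : 𝒱.Obj} {i : ℤ} (x : C.gr X i) :
    (ofClass' C x).1 = C.pull (snd (point 𝒱) X) x.1 := rfl

lemma toUnit_ofClass {T X : 𝒱.Obj} {n i : ℤ} (y : C.A T) (hy : y ∈ C.gr T (T.dim - n))
    (x : C.gr X i) : toUnit C y hy ≫ ofClass' C x = 0 ↔ C.ext y x.1 = 0 := by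
  constructor
  · intro h
    have h1 := congrArg Subtype.val h
    rw [comp_val, toUnit_val, ofClass'_val, C.comp_pull_snd] at h1
    exact h1
  · intro h
    apply hom_ext'
    rw [comp_val, toUnit_val, ofClass'_val, C.comp_pull_snd]
    exact h

omit hC in
lemma mem_congr {X : 𝒱.Obj} {a : C.A X} {i j : ℤ} (h : a ∈ C.gr X i) (e : i = j) :
    a ∈ C.gr X j := e ▸ h

/-- A kernel gives the data of an annihilator. -/
theorem isAnn_of_hasKernel {X : 𝒱.Obj} {i : ℤ} (x : C.gr X i) [HasKernel (ofClass C x)] :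
    ∃ (Z : 𝒱.Obj) (m : ℤ) (p : C.A (Z.prod Z)) (I : C.A Z), C.IsAnn x.1 Z m p I := by
  obtain ⟨I, hI, hιI⟩ := exists_toUnit C (T := (kernel (ofClass C x)).X.X)
    (n := (kernel (ofClass C x)).X.m) (kernel.ι (ofClass C x)).f
  refine ⟨(kernel (ofClass C x)).X.X, (kernel (ofClass C x)).X.m,
    (kernel (ofClass C x)).p.1, I, ?_, hI, ?_, ?_, ?_, ?_, ?_⟩
  · exact mem_congr C (kernel (ofClass C x)).p.2 (by simp only [Twisted.deg]; ring)
  · exact congrArg Subtype.val (kernel (ofClass C x)).idem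
  · have h1 := congrArg Subtype.val (Idempotents.Karoubi.p_comp (kernel.ι (ofClass C x)))
    rw [comp_val, hιI, toUnit_val] at h1
    exact C.pull_fst_point_injective ((C.comp_pull_fst I _).symm.trans h1)
  · have h1 := congrArg Idempotents.Karoubi.Hom.f (kernel.condition (ofClass C x))
    rw [Idempotents.Karoubi.comp_f, hιI] at h1
    exact (toUnit_ofClass C I hI x).1 h1
  · intro T n g hg hgp hgI
    let γ : motive C T n ⟶ kernel (ofClass C x) :=
      ⟨(⟨g, hg⟩ : (⟨T, n⟩ : Twisted C) ⟶ (kernel (ofClass C x)).X), by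
        change 𝟙 _ ≫ _ ≫ _ = _
        rw [Category.id_comp]
        exact hom_ext' hgp⟩
    have h1 : γ ≫ kernel.ι (ofClass C x) = 0 := by
      apply Idempotents.Karoubi.hom_ext
      rw [Idempotents.Karoubi.comp_f, hιI]
      apply hom_ext'
      rw [comp_val, toUnit_val]
      refine (C.comp_pull_fst I g).trans ?_
      rw [hgI, map_zero]
      rfl
    have h2 : γ = 0 := zero_of_comp_mono _ h1
    have h3 := congrArg Idempotents.Karoubi.Hom.f h2
    exact congrArg Subtype.val h3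
  · intro T n y hy hyx
    have h1 : (Idempotents.toKaroubi (Twisted C)).map (toUnit C y hy) ≫ ofClass C x = 0 := by
      apply Idempotents.Karoubi.hom_ext
      exact (toUnit_ofClass C y hy x).2 hyx
    set l : motive C T n ⟶ kernel (ofClass C x) := kernel.lift (ofClass C x) _ h1 with hl
    refine ⟨l.f.1, l.f.2, congrArg Subtype.val (Idempotents.Karoubi.comp_p l), ?_⟩
    have h2 := congrArg Idempotents.Karoubi.Hom.f (kernel.lift_ι (ofClass C x) _ h1)
    rw [Idempotents.Karoubi.comp_f, hιI] at h2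
    have h3 := congrArg Subtype.val h2
    rw [comp_val, toUnit_val] at h3
    exact C.pull_fst_point_injective ((C.comp_pull_fst I _).symm.trans h3)

/-- The zero motive. -/
noncomputable def zeroMotive : Motive C := ⟨⟨point 𝒱, 0⟩, 0, by rw [zero_comp]⟩

lemma isZero_zeroMotive : IsZero (zeroMotive C) := by
  rw [IsZero.iff_id_eq_zero]
  rfl

noncomputable instance : HasZeroObject (Motive C) := ⟨⟨zeroMotive C, isZero_zeroMotive C⟩⟩

/-- If the class `x` is not a zero divisor for external products, the morphism is mono. -/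
theorem mono_of_noZeroDiv {X : 𝒱.Obj} {i : ℤ} (x : C.gr X i)
    (h : ∀ (Y : 𝒱.Obj) (j : ℤ) (y : C.A Y), y ∈ C.gr Y j → y ≠ 0 → C.ext x.1 y ≠ 0) :
    Mono (ofClass C x) := by
  rw [Preadditive.mono_iff_cancel_zero]
  intro P g hg
  obtain ⟨y, hy, hgy⟩ := exists_toUnit C (T := P.X.X) (n := P.X.m) g.f
  have h1 := congrArg Idempotents.Karoubi.Hom.f hg
  rw [Idempotents.Karoubi.comp_f, hgy] at h1
  have h2 := (toUnit_ofClass C y hy x).1 h1
  have h3 : y = 0 := by
    by_contra h0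
    exact h _ _ y hy h0 (C.ext_swap_eq_zero h2)
  apply Idempotents.Karoubi.hom_ext
  rw [hgy]
  apply hom_ext'
  rw [toUnit_val, h3, map_zero]
  rfl

/-- **Kernels.** -/
theorem hasKernel_iff {X : 𝒱.Obj} {i : ℤ} (x : C.gr X i) (hx : x.1 ≠ 0) :
    HasKernel (ofClass C x) ↔
      ∀ (Y : 𝒱.Obj) (j : ℤ) (y : C.A Y), y ∈ C.gr Y j → y ≠ 0 → C.ext x.1 y ≠ 0 := by
  constructor
  · intro hK Y j y hy hy0 hxy
    obtain ⟨Z, m, p, I, hA⟩ := isAnn_of_hasKernel C x
    exact hy0 (hA.eq_zero x.2 hx hy (C.ext_swap_eq_zero hxy))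
  · intro h
    have := mono_of_noZeroDiv C x h
    exact ⟨⟨_, kernel.isLimitConeZeroCone (ofClass C x)⟩⟩

end Pool.Agent.Y108.Mo
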