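import Pool.Agent.Y108.Mo.Var

/-!
# Chow groups as a theory with pull-backs and push-forwards; correspondences
-/

set_option autoImplicit false

open CategoryTheory AlgebraicGeometry

universe u v

namespace Pool.Agent.Y108.Mo

open SmClass SmClass.Obj

variable {k : Type u} [Field k]

/-- The data of a theory on the class `𝒱` of smooth proper schemes over `k`: commutative
`ℚ`-algebras `A(X)` with subspaces `A^i(X)`, contravariant ring homomorphisms `f^*` and covariant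
linear maps `f_*`. In the intended use `A^i(X)` is the group of cycles of codimension `i` on `X` with
rational coefficients modulo rational (or another adequate) equivalence. -/
structure CycleTheory (𝒱 : SmClass k) where
  /-- the ring `A(X)` -/
  A : 𝒱.Obj → Type v
  [ring : ∀ X, CommRing (A X)]
  [algebra : ∀ X, Algebra ℚ (A X)]
  /-- the grading: `gr X i` is `A^i(X)` -/
  gr : ∀ X, ℤ → Submodule ℚ (A X)
  /-- pull-back -/
  pull : ∀ {X Y : 𝒱.Obj}, (X ⟶ Y) → (A Y →ₐ[ℚ] A X)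
  /-- push-forward -/
  push : ∀ {X Y : 𝒱.Obj}, (X ⟶ Y) → (A X →ₗ[ℚ] A Y)

attribute [instance] CycleTheory.ring CycleTheory.algebra

namespace CycleTheory

variable {𝒱 : SmClass k} (C : CycleTheory.{u, v} 𝒱) {V W X Y Z : 𝒱.Obj}

/-- `a ∈ A^i(X)`. -/
def Mem (i : ℤ) (a : C.A X) : Prop := a ∈ C.gr X i

/-- The pull-back `f^* b`. -/
def pb (f : X ⟶ Y) (b : C.A Y) : C.A X := C.pull f b

/-- The push-forward `f_* a`. -/
def pf (f : X ⟶ Y) (a : C.A X) : C.A Y := C.push f a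

/-- The group structure of `A(X)`. -/
abbrev grp (X : 𝒱.Obj) : AddCommGroup (C.A X) := inferInstance

/-- The product in the ring `A(X)`. -/
def mul (a b : C.A X) : C.A X := a * b

/-- The unit of the ring `A(X)`, the fundamental class. -/
def one (X : 𝒱.Obj) : C.A X := 1

/-- The external product `a × b`. -/
noncomputable def ext (a : C.A X) (b : C.A Y) : C.A (X.prod Y) :=
  C.mul (C.pb (fst X Y) a) (C.pb (snd X Y) b)

/-- The composition of the correspondences `Γ` from `X` to `Y` and `Δ` from `Y` to `Z`: pull back to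
`X × Y × Z`, multiply, push forward to `X × Z`. -/
noncomputable def comp (Γ : C.A (X.prod Y)) (Δ : C.A (Y.prod Z)) : C.A (X.prod Z) :=
  C.pf (prodMap (fst X Y) (𝟙 Z))
    (C.mul (C.pb (fst (X.prod Y) Z) Γ) (C.pb (prodMap (snd X Y) (𝟙 Z)) Δ))

/-- The class of the diagonal. -/
noncomputable def diag (X : 𝒱.Obj) : C.A (X.prod X) := C.pf (Obj.lift (𝟙 X) (𝟙 X)) (C.one X)

end CycleTheory

/-- The rings `A(X)` are graded; pull-backs preserve the codimension and push-forwards shift it by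
the difference of the dimensions. -/
class IsGradedTheory {𝒱 : SmClass k} (C : CycleTheory.{u, v} 𝒱) : Prop where
  isInternal : ∀ X, DirectSum.IsInternal (C.gr X)
  one_mem : ∀ X, C.Mem 0 (C.one X)
  mul_mem : ∀ {X : 𝒱.Obj} {i j : ℤ} {a b : C.A X}, C.Mem i a → C.Mem j b →
    C.Mem (i + j) (C.mul a b)
  pull_mem : ∀ {X Y : 𝒱.Obj} (f : X ⟶ Y) {i : ℤ} {b : C.A Y}, C.Mem i b → C.Mem i (C.pb f b)
  push_mem : ∀ {X Y : 𝒱.Obj} (f : X ⟶ Y) {i : ℤ} {a : C.A X}, C.Mem i a →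
    C.Mem (i + (Y.dim - X.dim)) (C.pf f a)

/-- Pull-back and push-forward are functorial, and the push-forward along an isomorphism preserves
the fundamental class. -/
class IsFunctorialTheory {𝒱 : SmClass k} (C : CycleTheory.{u, v} 𝒱) : Prop where
  pull_id : ∀ {X : 𝒱.Obj} (a : C.A X), C.pb (𝟙 X) a = a
  pull_comp : ∀ {X Y Z : 𝒱.Obj} (f : X ⟶ Y) (g : Y ⟶ Z) (a : C.A Z),
    C.pb (f ≫ g) a = C.pb f (C.pb g a)
  push_id : ∀ {X : 𝒱.Obj} (a : C.A X), C.pf (𝟙 X) a = a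
  push_comp : ∀ {X Y Z : 𝒱.Obj} (f : X ⟶ Y) (g : Y ⟶ Z) (a : C.A X),
    C.pf (f ≫ g) a = C.pf g (C.pf f a)
  push_one : ∀ {X Y : 𝒱.Obj} (f : X ⟶ Y) (g : Y ⟶ X), f ≫ g = 𝟙 X → g ≫ f = 𝟙 Y →
    C.pf f (C.one X) = C.one Y

/-- The projection formula, and base change along the projections of products. -/
class IsCompatibleTheory {𝒱 : SmClass k} (C : CycleTheory.{u, v} 𝒱) : Prop where
  proj : ∀ {X Y : 𝒱.Obj} (f : X ⟶ Y) (a : C.A X) (b : C.A Y),
    C.pf f (C.mul a (C.pb f b)) = C.mul (C.pf f a) b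
  base_fst : ∀ {X Y : 𝒱.Obj} (f : X ⟶ Y) (Z : 𝒱.Obj) (a : C.A X),
    C.pb (fst Y Z) (C.pf f a) = C.pf (prodMap f (𝟙 Z)) (C.pb (fst X Z) a)
  base_snd : ∀ {X Y : 𝒱.Obj} (f : X ⟶ Y) (Z : 𝒱.Obj) (a : C.A X),
    C.pb (snd Z Y) (C.pf f a) = C.pf (prodMap (𝟙 Z) f) (C.pb (snd Z X) a)

/-- The formal properties of the groups of cycles with rational coefficients modulo an adequate
equivalence relation, for instance of the Chow groups: graded rings; pull-backs preserve the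
codimension and push-forwards shift it by the difference of the dimensions; functoriality;
projection formula; base change along the projections of products; the push-forward along an
isomorphism preserves the fundamental class; `A(Spec k) = ℚ`. -/
class IsCycleTheory {𝒱 : SmClass k} (C : CycleTheory.{u, v} 𝒱) : Prop extends
    IsGradedTheory C, IsFunctorialTheory C, IsCompatibleTheory C where
  point_span : ∀ a : C.A (point 𝒱), ∃ q : ℚ, a = q • C.one (point 𝒱)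
  one_ne_zero : C.one (point 𝒱) ≠ 0

namespace CycleTheory

variable {𝒱 : SmClass k} (C : CycleTheory.{u, v} 𝒱) {V W X Y Z : 𝒱.Obj}

variable [hC : IsCycleTheory C]

lemma isInternal (X) : DirectSum.IsInternal (C.gr X) := hC.isInternal X
lemma one_mem (X) : (1 : C.A X) ∈ C.gr X 0 := hC.one_mem X
lemma mul_mem {i j : ℤ} {a b : C.A X} (ha : a ∈ C.gr X i) (hb : b ∈ C.gr X j) :
    a * b ∈ C.gr X (i + j) := hC.mul_mem ha hb
lemma pull_mem (f : X ⟶ Y) {i : ℤ} {b : C.A Y} (hb : b ∈ C.gr Y i) : C.pull f b ∈ C.gr X i :=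
  hC.pull_mem f hb
lemma push_mem (f : X ⟶ Y) {i : ℤ} {a : C.A X} (ha : a ∈ C.gr X i) :
    C.push f a ∈ C.gr Y (i + (Y.dim - X.dim)) := hC.push_mem f ha
lemma pull_id (a : C.A X) : C.pull (𝟙 X) a = a := hC.pull_id a
lemma pull_comp (f : X ⟶ Y) (g : Y ⟶ Z) (a : C.A Z) :
    C.pull (f ≫ g) a = C.pull f (C.pull g a) := hC.pull_comp f g a
lemma push_id (a : C.A X) : C.push (𝟙 X) a = a := hC.push_id a
lemma push_comp (f : X ⟶ Y) (g : Y ⟶ Z) (a : C.A X) :
    C.push (f ≫ g) a = C.push g (C.push f a) := hC.push_comp f g a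
lemma proj_right (f : X ⟶ Y) (a : C.A X) (b : C.A Y) :
    C.push f (a * C.pull f b) = C.push f a * b := hC.proj f a b
lemma proj_left (f : X ⟶ Y) (a : C.A X) (b : C.A Y) :
    C.push f (C.pull f b * a) = b * C.push f a := by
  rw [mul_comm, proj_right, mul_comm]
lemma base_fst (f : X ⟶ Y) (Z : 𝒱.Obj) (a : C.A X) :
    C.pull (fst Y Z) (C.push f a) = C.push (prodMap f (𝟙 Z)) (C.pull (fst X Z) a) :=
  hC.base_fst f Z a
lemma base_snd (f : X ⟶ Y) (Z : 𝒱.Obj) (a : C.A X) :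
    C.pull (snd Z Y) (C.push f a) = C.push (prodMap (𝟙 Z) f) (C.pull (snd Z X) a) :=
  hC.base_snd f Z a

omit hC in
lemma comp_def (Γ : C.A (X.prod Y)) (Δ : C.A (Y.prod Z)) :
    C.comp Γ Δ = C.push (t13 X Y Z) (C.pull (fst (X.prod Y) Z) Γ * C.pull (t23 X Y Z) Δ) := rfl

omit hC in
lemma ext_def (a : C.A X) (b : C.A Y) :
    C.ext a b = C.pull (fst X Y) a * C.pull (snd X Y) b := rfl

omit hC in
lemma diag_def (X : 𝒱.Obj) : C.diag X = C.push (Obj.lift (𝟙 X) (𝟙 X)) 1 := rfl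

lemma push_pull_iso (f : X ⟶ Y) (g : Y ⟶ X) (h1 : f ≫ g = 𝟙 X) (h2 : g ≫ f = 𝟙 Y) (b : C.A Y) :
    C.push f (C.pull f b) = b := by
  have := C.proj_right f 1 b
  rw [one_mul] at this
  rw [this]
  have h3 : C.push f 1 = 1 := hC.push_one f g h1 h2
  rw [h3, one_mul]

lemma pull_iso (f : X ⟶ Y) (g : Y ⟶ X) (h1 : f ≫ g = 𝟙 X) (h2 : g ≫ f = 𝟙 Y) (b : C.A Y) :
    C.pull f b = C.push g b := by
  have h3 := C.push_pull_iso f g h1 h2 b
  have h4 : C.push g (C.push f (C.pull f b)) = C.push g b := by rw [h3]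
  rw [← C.push_comp, h1, C.push_id] at h4
  exact h4

/-- Change of the model: `q_* w = (f q)_* f^* w` for an isomorphism `f`. -/
lemma push_model (f : X ⟶ Y) (g : Y ⟶ X) (h1 : f ≫ g = 𝟙 X) (h2 : g ≫ f = 𝟙 Y) (q : Y ⟶ Z)
    (b : C.A Y) : C.push q b = C.push (f ≫ q) (C.pull f b) := by
  rw [C.push_comp, C.push_pull_iso f g h1 h2]

/-- Composition with `Δ` on the right, on the model `V × (X × Y)`. -/
noncomputable def extR (Γ : C.A (X.prod Y)) (Z : 𝒱.Obj) (c : C.A (Z.prod X)) : C.A (Z.prod Y) :=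
  C.push (u13 Z X Y) (C.pull (snd Z (X.prod Y)) Γ * C.pull (u12 Z X Y) c)

lemma comp_eq_extR (Γ : C.A (X.prod Y)) (Δ : C.A (Y.prod Z)) :
    C.comp Γ Δ = C.extR Δ X Γ := by
  rw [extR, C.push_model (aI X Y Z) (aJ X Y Z) aI_aJ aJ_aI, map_mul, ← C.pull_comp,
    ← C.pull_comp, comp_def]
  have e1 : aI X Y Z ≫ u13 X Y Z = t13 X Y Z := by
    apply prod_ext <;> simp [aI, u13, t13, comp_lift]
  have e2 : aI X Y Z ≫ u12 X Y Z = fst (X.prod Y) Z := by
    apply prod_ext <;> simp [aI, u12, comp_lift]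
  have e3 : aI X Y Z ≫ snd X (Y.prod Z) = t23 X Y Z := by
    apply prod_ext <;> simp [aI, t23, comp_lift]
  rw [e1, e2, e3, mul_comm]

lemma base_u12 (G : C.A (V.prod (X.prod Y))) :
    C.pull (u12 V Y Z) (C.push (u13 V X Y) G) =
      C.push (prodMap (𝟙 V) (t23 X Y Z)) (C.pull (prodMap (𝟙 V) (fst (X.prod Y) Z)) G) := by
  have e1 : u12 V Y Z = aJ V Y Z ≫ fst (V.prod Y) Z := by
    apply prod_ext <;> simp [aJ, u12, comp_lift]
  rw [e1, C.pull_comp, C.base_fst, C.pull_iso (aJ V Y Z) (aI V Y Z) aJ_aI aI_aJ, ← C.push_comp,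
    C.push_model (aJ V (X.prod Y) Z) (aI V (X.prod Y) Z) aJ_aI aI_aJ, ← C.pull_comp]
  have e2 : aJ V (X.prod Y) Z ≫ fst (V.prod (X.prod Y)) Z = prodMap (𝟙 V) (fst (X.prod Y) Z) := by
    apply prod_ext <;> simp [aJ, comp_lift]
  have e3 : aJ V (X.prod Y) Z ≫ prodMap (u13 V X Y) (𝟙 Z) ≫ aI V Y Z =
      prodMap (𝟙 V) (t23 X Y Z) := by
    apply prod_ext
    · simp [aJ, aI, u13, t23, comp_lift]
    · apply prod_ext <;> simp [aJ, aI, u13, t23, comp_lift]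
  rw [e2, e3]

lemma extR_comp (Δ : C.A (X.prod Y)) (Θ : C.A (Y.prod Z)) (c : C.A (V.prod X)) :
    C.extR (C.comp Δ Θ) V c = C.extR Θ V (C.extR Δ V c) := by
  have h1 : C.extR Θ V (C.extR Δ V c) = C.push (u13 V Y Z) (C.pull (snd V (Y.prod Z)) Θ *
      C.pull (u12 V Y Z) (C.push (u13 V X Y) (C.pull (snd V (X.prod Y)) Δ *
        C.pull (u12 V X Y) c))) := rfl
  have h2 : C.extR (C.comp Δ Θ) V c = C.push (u13 V X Z) (C.pull (snd V (X.prod Z))
      (C.push (t13 X Y Z) (C.pull (t23 X Y Z) Θ * C.pull (fst (X.prod Y) Z) Δ)) *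
        C.pull (u12 V X Z) c) := by
    rw [mul_comm (C.pull (t23 X Y Z) Θ)]
    rfl
  have e1 : prodMap (𝟙 V) (t13 X Y Z) ≫ u13 V X Z = prodMap (𝟙 V) (t23 X Y Z) ≫ u13 V Y Z := by
    apply prod_ext <;> simp [u13, t13, t23]
  have e2 : prodMap (𝟙 V) (t13 X Y Z) ≫ u12 V X Z =
      prodMap (𝟙 V) (fst (X.prod Y) Z) ≫ u12 V X Y := by
    apply prod_ext <;> simp [u12, t13]
  have e3 : prodMap (𝟙 V) (t23 X Y Z) ≫ snd V (Y.prod Z) =
      snd V ((X.prod Y).prod Z) ≫ t23 X Y Z := prodMap_snd _ _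
  have e4 : prodMap (𝟙 V) (fst (X.prod Y) Z) ≫ snd V (X.prod Y) =
      snd V ((X.prod Y).prod Z) ≫ fst (X.prod Y) Z := prodMap_snd _ _
  rw [h1, h2, base_u12, C.base_snd, ← C.proj_left, ← C.proj_right, ← C.push_comp, ← C.push_comp,
    map_mul (C.pull (snd V ((X.prod Y).prod Z))), map_mul (C.pull (prodMap (𝟙 V) _)),
    ← C.pull_comp, ← C.pull_comp, ← C.pull_comp, ← C.pull_comp, ← C.pull_comp, ← C.pull_comp,
    mul_assoc, e1, e2, e3, e4]

lemma comp_assoc (Γ : C.A (X.prod Y)) (Δ : C.A (Y.prod Z)) (Θ : C.A (Z.prod W)) :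
    C.comp (C.comp Γ Δ) Θ = C.comp Γ (C.comp Δ Θ) := by
  rw [C.comp_eq_extR (C.comp Γ Δ), C.comp_eq_extR Γ Δ, C.comp_eq_extR Γ, extR_comp]

lemma comp_diag (Γ : C.A (X.prod Y)) : C.comp Γ (C.diag Y) = Γ := by
  rw [comp_eq_extR, diag_def, extR, C.base_snd, ← C.proj_right, ← C.push_comp, map_one,
    one_mul, ← C.pull_comp]
  have e1 : prodMap (𝟙 X) (Obj.lift (𝟙 Y) (𝟙 Y)) ≫ u12 X Y Y = 𝟙 _ := by
    apply prod_ext <;> simp [u12]
  have e2 : prodMap (𝟙 X) (Obj.lift (𝟙 Y) (𝟙 Y)) ≫ u13 X Y Y = 𝟙 _ := by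
    apply prod_ext <;> simp [u13]
  rw [e1, e2, C.push_id, C.pull_id]

lemma diag_comp (Γ : C.A (X.prod Y)) : C.comp (C.diag X) Γ = Γ := by
  rw [comp_def, diag_def, C.base_fst, ← C.proj_right, ← C.push_comp, map_one,
    one_mul, ← C.pull_comp]
  have e1 : prodMap (Obj.lift (𝟙 X) (𝟙 X)) (𝟙 Y) ≫ t13 X X Y = 𝟙 _ := by
    apply prod_ext <;> simp [t13]
  have e2 : prodMap (Obj.lift (𝟙 X) (𝟙 X)) (𝟙 Y) ≫ t23 X X Y = 𝟙 _ := by
    apply prod_ext <;> simp [t23]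
  rw [e1, e2, C.push_id, C.pull_id]

omit hC in
lemma add_comp (Γ Γ' : C.A (X.prod Y)) (Δ : C.A (Y.prod Z)) :
    C.comp (Γ + Γ') Δ = C.comp Γ Δ + C.comp Γ' Δ := by
  rw [comp_def, map_add, add_mul, map_add]
  rfl

omit hC in
lemma comp_add (Γ : C.A (X.prod Y)) (Δ Δ' : C.A (Y.prod Z)) :
    C.comp Γ (Δ + Δ') = C.comp Γ Δ + C.comp Γ Δ' := by
  rw [comp_def, map_add, mul_add, map_add]
  rfl

lemma diag_mem (X : 𝒱.Obj) : C.diag X ∈ C.gr (X.prod X) X.dim := by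
  have h1 := C.push_mem (Obj.lift (𝟙 X) (𝟙 X)) (C.one_mem X)
  have h2 : (0 : ℤ) + (((X.prod X).dim : ℤ) - X.dim) = X.dim := by
    rw [dim_prod]; push_cast; ring
  rwa [h2] at h1

lemma comp_mem {i j l : ℤ} {Γ : C.A (X.prod Y)} {Δ : C.A (Y.prod Z)} (hΓ : Γ ∈ C.gr _ i)
    (hΔ : Δ ∈ C.gr _ j) (h : i + j - Y.dim = l) : C.comp Γ Δ ∈ C.gr _ l := by
  have h1 := C.push_mem (t13 X Y Z) (C.mul_mem (C.pull_mem (fst (X.prod Y) Z) hΓ)
    (C.pull_mem (t23 X Y Z) hΔ))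
  have h2 : i + j + (((X.prod Z).dim : ℤ) - ((X.prod Y).prod Z).dim) = l := by
    rw [← h, dim_prod, dim_prod, dim_prod]; push_cast; ring
  rw [h2] at h1
  exact h1

end CycleTheory

end Pool.Agent.Y108.Mo
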