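import Mathlib

/-!
# Smooth proper schemes of pure dimension over a field, and their products
-/

set_option autoImplicit false

open CategoryTheory CategoryTheory.Limits AlgebraicGeometry

universe u

namespace Pool.Agent.Y108.Mo

/-- A smooth proper scheme of pure dimension `dim` over the field `k` (it need not be connected). -/
structure SmSch (k : Type u) [Field k] where
  /-- the underlying scheme -/
  X : Scheme.{u}
  /-- the structure morphism -/
  str : X ⟶ Spec (.of k)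
  /-- the dimension -/
  dim : ℕ
  smooth : SmoothOfRelativeDimension dim str
  proper : IsProper str

attribute [instance] SmSch.smooth SmSch.proper

namespace SmSch

variable {k : Type u} [Field k]

/-- A morphism over `k`. -/
@[ext]
structure Hom (X Y : SmSch k) where
  /-- the underlying morphism of schemes -/
  hom : X.X ⟶ Y.X
  w : hom ≫ Y.str = X.str

instance : Category (SmSch k) where
  Hom := Hom
  id X := ⟨𝟙 _, by simp⟩
  comp f g := ⟨f.hom ≫ g.hom, by rw [Category.assoc, g.w, f.w]⟩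

@[ext]
lemma hom_ext {X Y : SmSch k} {f g : X ⟶ Y} (h : f.hom = g.hom) : f = g := Hom.ext h

@[simp] lemma id_hom (X : SmSch k) : (𝟙 X : X ⟶ X).hom = 𝟙 X.X := rfl
@[simp] lemma comp_hom {X Y Z : SmSch k} (f : X ⟶ Y) (g : Y ⟶ Z) :
    (f ≫ g).hom = f.hom ≫ g.hom := rfl

/-- The product `X × Y` over `k`. -/
noncomputable def prod (X Y : SmSch k) : SmSch k where
  X := pullback X.str Y.str
  str := pullback.fst X.str Y.str ≫ X.str
  dim := X.dim + Y.dim
  smooth := by
    have h0 := smoothOfRelativeDimension_isStableUnderBaseChange Y.dim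
    have h : SmoothOfRelativeDimension Y.dim (pullback.fst X.str Y.str) :=
      MorphismProperty.pullback_fst (P := @SmoothOfRelativeDimension Y.dim) _ _ Y.smooth
    rw [add_comm]
    exact smoothOfRelativeDimension_comp Y.dim X.dim (pullback.fst X.str Y.str) X.str
  proper := inferInstance

/-- The point `Spec k`. -/
noncomputable def point (k : Type u) [Field k] : SmSch k where
  X := Spec (.of k)
  str := 𝟙 _
  dim := 0
  smooth := inferInstance
  proper := inferInstance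

/-- The first projection. -/
noncomputable def fst (X Y : SmSch k) : X.prod Y ⟶ X := ⟨pullback.fst X.str Y.str, rfl⟩

/-- The second projection. -/
noncomputable def snd (X Y : SmSch k) : X.prod Y ⟶ Y :=
  ⟨pullback.snd X.str Y.str, pullback.condition.symm⟩

/-- The morphism to the product given by a pair of morphisms. -/
noncomputable def lift {W X Y : SmSch k} (f : W ⟶ X) (g : W ⟶ Y) : W ⟶ X.prod Y :=
  ⟨pullback.lift f.hom g.hom (by rw [f.w, g.w]), by
    change pullback.lift _ _ _ ≫ pullback.fst X.str Y.str ≫ X.str = _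
    rw [pullback.lift_fst_assoc, f.w]⟩

lemma lift_fst {W X Y : SmSch k} (f : W ⟶ X) (g : W ⟶ Y) : lift f g ≫ fst X Y = f :=
  hom_ext (pullback.lift_fst _ _ _)

lemma lift_snd {W X Y : SmSch k} (f : W ⟶ X) (g : W ⟶ Y) : lift f g ≫ snd X Y = g :=
  hom_ext (pullback.lift_snd _ _ _)

lemma prod_ext {W X Y : SmSch k} {f g : W ⟶ X.prod Y} (h1 : f ≫ fst X Y = g ≫ fst X Y)
    (h2 : f ≫ snd X Y = g ≫ snd X Y) : f = g := by
  have e1 : (f ≫ fst X Y).hom = (g ≫ fst X Y).hom := by rw [h1]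
  have e2 : (f ≫ snd X Y).hom = (g ≫ snd X Y).hom := by rw [h2]
  apply hom_ext
  exact Limits.pullback.hom_ext e1 e2

/-- The structure morphism as a morphism to the point. -/
noncomputable def toPoint (X : SmSch k) : X ⟶ point k := ⟨X.str, Category.comp_id _⟩

lemma toPoint_ext {X : SmSch k} (f g : X ⟶ point k) : f = g := by
  apply hom_ext
  have h1 := f.w
  have h2 := g.w
  change f.hom ≫ 𝟙 _ = _ at h1
  change g.hom ≫ 𝟙 _ = _ at h2
  rw [Category.comp_id] at h1 h2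
  rw [h1, h2]

end SmSch

/-- A class of smooth proper schemes of pure dimension over `k` which is closed under products and
contains `Spec k`, for example the class of all smooth projective schemes of pure dimension. -/
structure SmClass (k : Type u) [Field k] where
  /-- membership in the class -/
  mem : SmSch k → Prop
  prod_mem : ∀ {X Y : SmSch k}, mem X → mem Y → mem (X.prod Y)
  point_mem : mem (SmSch.point k)

namespace SmClass

variable {k : Type u} [Field k]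

/-- The members of the class `𝒱`. -/
structure Obj (𝒱 : SmClass k) where
  /-- the underlying scheme -/
  V : SmSch k
  mem : 𝒱.mem V

variable {𝒱 : SmClass k}

instance : Category 𝒱.Obj where
  Hom X Y := X.V ⟶ Y.V
  id X := 𝟙 X.V
  comp f g := SmSch.Hom.mk (f.hom ≫ g.hom) (by rw [Category.assoc, g.w, f.w])

namespace Obj

/-- The dimension. -/
abbrev dim (X : 𝒱.Obj) : ℕ := X.V.dim

/-- The product. -/
noncomputable def prod (X Y : 𝒱.Obj) : 𝒱.Obj := ⟨X.V.prod Y.V, 𝒱.prod_mem X.mem Y.mem⟩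

/-- The point `Spec k`. -/
noncomputable def point (𝒱 : SmClass k) : 𝒱.Obj := ⟨SmSch.point k, 𝒱.point_mem⟩

/-- The first projection. -/
noncomputable def fst (X Y : 𝒱.Obj) : X.prod Y ⟶ X := SmSch.fst X.V Y.V

/-- The second projection. -/
noncomputable def snd (X Y : 𝒱.Obj) : X.prod Y ⟶ Y := SmSch.snd X.V Y.V

/-- The morphism to the product given by a pair of morphisms. -/
noncomputable def lift {W X Y : 𝒱.Obj} (f : W ⟶ X) (g : W ⟶ Y) : W ⟶ X.prod Y :=
  SmSch.lift (X := X.V) (Y := Y.V) f g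

/-- The morphism to the point. -/
noncomputable def toPoint (X : 𝒱.Obj) : X ⟶ point 𝒱 := SmSch.toPoint X.V

@[reassoc (attr := simp)]
lemma lift_fst {W X Y : 𝒱.Obj} (f : W ⟶ X) (g : W ⟶ Y) : lift f g ≫ fst X Y = f :=
  SmSch.lift_fst (X := X.V) (Y := Y.V) f g

@[reassoc (attr := simp)]
lemma lift_snd {W X Y : 𝒱.Obj} (f : W ⟶ X) (g : W ⟶ Y) : lift f g ≫ snd X Y = g :=
  SmSch.lift_snd (X := X.V) (Y := Y.V) f g

lemma prod_ext {W X Y : 𝒱.Obj} {f g : W ⟶ X.prod Y} (h1 : f ≫ fst X Y = g ≫ fst X Y)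
    (h2 : f ≫ snd X Y = g ≫ snd X Y) : f = g :=
  SmSch.prod_ext (X := X.V) (Y := Y.V) h1 h2

lemma toPoint_ext {X : 𝒱.Obj} (f g : X ⟶ point 𝒱) : f = g := SmSch.toPoint_ext (X := X.V) f g

@[simp] lemma dim_prod (X Y : 𝒱.Obj) : (X.prod Y).dim = X.dim + Y.dim := rfl

@[simp] lemma dim_point : (point 𝒱).dim = 0 := rfl

/-- The product `f × g : X × Z ⟶ Y × W` of two morphisms. -/
noncomputable def prodMap {X Y Z W : 𝒱.Obj} (f : X ⟶ Y) (g : Z ⟶ W) : X.prod Z ⟶ Y.prod W :=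
  Obj.lift (fst X Z ≫ f) (snd X Z ≫ g)

variable {W X Y Z V : 𝒱.Obj}

@[reassoc (attr := simp)]
lemma prodMap_fst (f : X ⟶ Y) (g : Z ⟶ W) : prodMap f g ≫ fst Y W = fst X Z ≫ f :=
  lift_fst _ _

@[reassoc (attr := simp)]
lemma prodMap_snd (f : X ⟶ Y) (g : Z ⟶ W) : prodMap f g ≫ snd Y W = snd X Z ≫ g :=
  lift_snd _ _

lemma comp_lift (e : V ⟶ W) (f : W ⟶ X) (g : W ⟶ Y) :
    e ≫ Obj.lift f g = Obj.lift (e ≫ f) (e ≫ g) := by
  apply prod_ext <;> simp

lemma lift_eta : Obj.lift (fst X Y) (snd X Y) = 𝟙 (X.prod Y) := by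
  apply prod_ext <;> simp

/-- `X × Y ⟶ Y × X`. -/
noncomputable def sw (X Y : 𝒱.Obj) : X.prod Y ⟶ Y.prod X := Obj.lift (snd X Y) (fst X Y)

lemma sw_sw : sw X Y ≫ sw Y X = 𝟙 _ := by
  apply prod_ext <;> simp [sw, comp_lift]

/-- The projection `(X × Y) × Z ⟶ X × Z`. -/
noncomputable def t13 (X Y Z : 𝒱.Obj) : (X.prod Y).prod Z ⟶ X.prod Z := prodMap (fst X Y) (𝟙 Z)

/-- The projection `(X × Y) × Z ⟶ Y × Z`. -/
noncomputable def t23 (X Y Z : 𝒱.Obj) : (X.prod Y).prod Z ⟶ Y.prod Z := prodMap (snd X Y) (𝟙 Z)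

@[reassoc (attr := simp)]
lemma t13_fst : t13 X Y Z ≫ fst X Z = fst (X.prod Y) Z ≫ fst X Y := prodMap_fst _ _
@[reassoc (attr := simp)]
lemma t23_fst : t23 X Y Z ≫ fst Y Z = fst (X.prod Y) Z ≫ snd X Y := prodMap_fst _ _
@[reassoc (attr := simp)]
lemma t13_snd : t13 X Y Z ≫ snd X Z = snd (X.prod Y) Z := by
  rw [t13, prodMap_snd, Category.comp_id]
@[reassoc (attr := simp)]
lemma t23_snd : t23 X Y Z ≫ snd Y Z = snd (X.prod Y) Z := by
  rw [t23, prodMap_snd, Category.comp_id]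

/-- The projection `Z × (X × Y) ⟶ Z × X`. -/
noncomputable def u12 (Z X Y : 𝒱.Obj) : Z.prod (X.prod Y) ⟶ Z.prod X := prodMap (𝟙 Z) (fst X Y)

/-- The projection `Z × (X × Y) ⟶ Z × Y`. -/
noncomputable def u13 (Z X Y : 𝒱.Obj) : Z.prod (X.prod Y) ⟶ Z.prod Y := prodMap (𝟙 Z) (snd X Y)

@[reassoc (attr := simp)]
lemma u12_snd : u12 Z X Y ≫ snd Z X = snd Z (X.prod Y) ≫ fst X Y := prodMap_snd _ _
@[reassoc (attr := simp)]
lemma u13_snd : u13 Z X Y ≫ snd Z Y = snd Z (X.prod Y) ≫ snd X Y := prodMap_snd _ _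
@[reassoc (attr := simp)]
lemma u12_fst : u12 Z X Y ≫ fst Z X = fst Z (X.prod Y) := by
  rw [u12, prodMap_fst, Category.comp_id]
@[reassoc (attr := simp)]
lemma u13_fst : u13 Z X Y ≫ fst Z Y = fst Z (X.prod Y) := by
  rw [u13, prodMap_fst, Category.comp_id]

/-- `(X × Y) × Z ⟶ X × (Y × Z)`. -/
noncomputable def aI (X Y Z : 𝒱.Obj) : (X.prod Y).prod Z ⟶ X.prod (Y.prod Z) :=
  Obj.lift (fst (X.prod Y) Z ≫ fst X Y)
    (Obj.lift (fst (X.prod Y) Z ≫ snd X Y) (snd (X.prod Y) Z))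

/-- `X × (Y × Z) ⟶ (X × Y) × Z`. -/
noncomputable def aJ (X Y Z : 𝒱.Obj) : X.prod (Y.prod Z) ⟶ (X.prod Y).prod Z :=
  Obj.lift (Obj.lift (fst X (Y.prod Z)) (snd X (Y.prod Z) ≫ fst Y Z))
    (snd X (Y.prod Z) ≫ snd Y Z)

lemma aI_aJ : aI X Y Z ≫ aJ X Y Z = 𝟙 _ := by
  apply prod_ext
  · apply prod_ext <;> simp [aI, aJ, comp_lift]
  · simp [aI, aJ, comp_lift]

lemma aJ_aI : aJ X Y Z ≫ aI X Y Z = 𝟙 _ := by
  apply prod_ext
  · simp [aI, aJ, comp_lift]
  · apply prod_ext <;> simp [aI, aJ, comp_lift]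

end Obj

end SmClass

end Pool.Agent.Y108.Mo
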